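import Pool.Agent.helper42.NS.Spec

/-!
# Row nos:MO2: the moments from `PP`
-/

namespace Pool.Agent.helper42.NS

open Polynomial Matrix

/-- the additive functional `M ↦ v ⬝ᵥ M w` -/
def MO2_f {m : ℕ} (v w : Fin m → ℤ) : Matrix (Fin m) (Fin m) ℤ →+ ℤ where
  toFun M := v ⬝ᵥ M.mulVec w
  map_zero' := by simp
  map_add' M N := by rw [Matrix.add_mulVec, dotProduct_add]

theorem MO2_smul {m : ℕ} (v w : Fin m → ℤ) (c : ℤ) (M : Matrix (Fin m) (Fin m) ℤ) :
    MO2_f v w (c • M) = c * MO2_f v w M := by
  show v ⬝ᵥ (c • M).mulVec w = c * (v ⬝ᵥ M.mulVec w)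
  rw [Matrix.smul_mulVec, dotProduct_smul, smul_eq_mul]

/-- Cayley-Hamilton for the moments -/
theorem MO2_ch {m : ℕ} (H : Matrix (Fin m) (Fin m) ℤ) (v w : Fin m → ℤ) (t : ℕ) :
    ∑ s ∈ Finset.range (m + 1), H.charpoly.coeff s * (v ⬝ᵥ (H ^ (s + t)).mulVec w) = 0 := by
  have h1 : aeval H H.charpoly = 0 := Matrix.aeval_self_charpoly H
  rw [aeval_eq_sum_range, Matrix.charpoly_natDegree_eq_dim, Fintype.card_fin] at h1
  have h2 : MO2_f v w ((∑ s ∈ Finset.range (m + 1), H.charpoly.coeff s • H ^ s) * H ^ t) = 0 := by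
    rw [h1, zero_mul, map_zero]
  rw [Finset.sum_mul, map_sum] at h2
  rw [← h2]
  apply Finset.sum_congr rfl
  intro s _
  rw [smul_mul_assoc, MO2_smul, ← pow_add]
  rfl

/-- MO2: the moments from `PP` -/
theorem MO2 (h : ADJ_stmt) : MO2_stmt := by
  intro m H H' v w v' w' e hφ hP l
  induction l using Nat.strong_induction_on with
  | _ l ih =>
    by_cases hl : l < m
    · have hm : H.charpoly.coeff m = 1 := by
        have h1 := Matrix.charpoly_monic H
        have h2 := Matrix.charpoly_natDegree_eq_dim H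
        rw [Fintype.card_fin] at h2
        rw [Monic, leadingCoeff, h2] at h1
        exact h1
      have h1 := h m H v w (m - 1 - l)
      have h2 := h m H' v' w' (m - 1 - l)
      have h3 : (PP H v w).coeff (m - 1 - l) = e * (PP H' v' w').coeff (m - 1 - l) := by
        rw [hP, coeff_C_mul]
      rw [h1, h2, ← hφ] at h3
      have h4 : m - 1 - l + 1 ≤ m := by omega
      rw [Finset.sum_Ico_succ_top h4, Finset.sum_Ico_succ_top h4, hm] at h3
      have e1 : m - (m - 1 - l) - 1 = l := by omega
      rw [e1, mul_add, Finset.mul_sum] at h3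
      have h5 : ∑ s ∈ Finset.Ico (m - 1 - l + 1) m,
          H.charpoly.coeff s * (v ⬝ᵥ (H ^ (s - (m - 1 - l) - 1)).mulVec w) =
          ∑ s ∈ Finset.Ico (m - 1 - l + 1) m,
          e * (H.charpoly.coeff s * (v' ⬝ᵥ (H' ^ (s - (m - 1 - l) - 1)).mulVec w')) := by
        apply Finset.sum_congr rfl
        intro s hs
        rw [Finset.mem_Ico] at hs
        rw [ih (s - (m - 1 - l) - 1) (by omega)]
        ring
      rw [h5] at h3
      have h6 := add_left_cancel h3
      rw [one_mul, one_mul] at h6
      exact h6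
    · push Not at hl
      have hm : H.charpoly.coeff m = 1 := by
        have h1 := Matrix.charpoly_monic H
        have h2 := Matrix.charpoly_natDegree_eq_dim H
        rw [Fintype.card_fin] at h2
        rw [Monic, leadingCoeff, h2] at h1
        exact h1
      have h1 := MO2_ch H v w (l - m)
      have h2 := MO2_ch H' v' w' (l - m)
      rw [← hφ] at h2
      rw [Finset.sum_range_succ, hm] at h1 h2
      have e1 : m + (l - m) = l := by omega
      rw [e1, one_mul] at h1 h2
      have h5 : ∑ s ∈ Finset.range m,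
          H.charpoly.coeff s * (v ⬝ᵥ (H ^ (s + (l - m))).mulVec w) =
          e * ∑ s ∈ Finset.range m,
          H.charpoly.coeff s * (v' ⬝ᵥ (H' ^ (s + (l - m))).mulVec w') := by
        rw [Finset.mul_sum]
        apply Finset.sum_congr rfl
        intro s hs
        rw [Finset.mem_range] at hs
        rw [ih (s + (l - m)) (by omega)]
        ring
      rw [h5] at h1
      linear_combination h1 - e * h2

end Pool.Agent.helper42.NS
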